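import Pool.Agent.U106.OC.Dil
import Pool.Agent.U106.OC.Fur

/-!
# Furstenberg's orbit closure dimension conjecture: structure of the set of exceptions

Let `O b x` be the closure of the orbit of `x` modulo one under the multiplication by `b`, and
`D b x` its Hausdorff dimension.

1. `D b` is a function on the rational vector space `ℝ / ℚ` with `D (q x) = D x` for all rational
`q ≠ 0` and `D (x + y) ≤ D x + D y`; it depends only on the multiplicative class of the base
(`D (b ^ k) = D b`). So the `x` with `D b x = 0` form a vector space over `ℚ`, and adding an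
element of this space does not change `D b`.
2. For an irrational `x`, finitely many bases `b` and `ε > 0`, the set of the integers `m` for which
some `O b (m x)` is not `ε`-dense in `[0,1]` has density zero.
3. Therefore the conjecture for `a` and `b`, or for any two powers of `a` and `b`, is equivalent to
its restriction to the irrational `x` in any given interval, arbitrarily short, for which both orbit
closures are `ε`-dense, that is, both expansions contain all words of a given length: every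
exception produces, in every interval, exceptions with the same two dimensions and with `ε`-dense
orbit closures.
4. If `D a x < 1`, `x` irrational, the orbit closure `O a x` contains no number `p x + r` with a
rational `r` and an integer `p`, `|p| ≥ 2` multiplicatively independent of `a`, and no rational
translate of an infinite closed set invariant under the multiplication by such a `p`. In particular
for an exception `x` no `b ^ j x + r`, `j ≥ 1`, is in `O a x`, and no `a ^ i x + r` is in `O b x`.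
-/

set_option autoImplicit false

open Set Filter Topology
open scoped ENNReal

namespace Pool.Agent.Results.MP_c9a594_an.LocalAtDenseOrbits

/-- the closure of the orbit of `x` modulo one under multiplication by `b` -/
def O (b : ℕ) (x : ℝ) : Set ℝ := closure (range fun n : ℕ => Int.fract ((b : ℝ) ^ n * x))

/-- the Hausdorff dimension of the orbit closure -/
noncomputable def D (b : ℕ) (x : ℝ) : ℝ≥0∞ := dimH (O b x)

/-- multiplicative independence -/
def Indep (a b : ℕ) : Prop := ∀ k l : ℕ, 0 < k → 0 < l → a ^ k ≠ b ^ l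

/-- every point of `[0,1]` is at a distance less than `ε` from a point of `S` -/
def EDense (ε : ℝ) (S : Set ℝ) : Prop := ∀ y ∈ Icc (0 : ℝ) 1, ∃ s ∈ S, |s - y| < ε

open Pool.Agent.U106.OC (dim_affine dim_pow dim_add dim_rat_mul dim_neg dim_rat dimH_orb_le_one
  dilations exists_located not_mem not_subset dim_nat_mul)

theorem D_add_of_zero {b : ℕ} (hb : 2 ≤ b) (x y : ℝ) (hy : D b y = 0) : D b (x + y) = D b x := by
  refine le_antisymm ?_ ?_
  · have := dim_add hb x y
    change D b (x + y) ≤ D b x + D b y at this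
    rwa [hy, add_zero] at this
  · have h1 := dim_add hb (x + y) (-y)
    rw [dim_neg hb] at h1
    change D b (x + y + -y) ≤ D b (x + y) + D b y at h1
    rwa [hy, add_zero, add_neg_cancel_right] at h1

theorem D_fract {b : ℕ} (hb : 2 ≤ b) (x : ℝ) : D b (Int.fract x) = D b x := by
  refine dim_affine hb (x := x) (y := Int.fract x) (m := 1) (n := 1) (r := ((-⌊x⌋ : ℤ) : ℚ))
    (by norm_num) (by norm_num) ?_
  rw [Int.fract]
  push_cast
  ring

theorem O_fract (b : ℕ) (x : ℝ) : O b (Int.fract x) = O b x := by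
  unfold O
  congr 2
  funext n
  have h : (b : ℝ) ^ n * Int.fract x = (b : ℝ) ^ n * x - (((b : ℤ) ^ n * ⌊x⌋ : ℤ) : ℝ) := by
    rw [Int.fract]
    push_cast
    ring
  rw [h, Int.fract_sub_intCast]

theorem irrational_fract {x : ℝ} (hx : Irrational x) : Irrational (Int.fract x) := by
  rw [Int.fract]
  exact hx.sub_intCast _

/-- localisation -/
theorem localise (B : Finset ℕ) (hB : ∀ b ∈ B, 2 ≤ b) {x : ℝ} (hx : Irrational x) {ε : ℝ}
    (hε : 0 < ε) {u v : ℝ} (hu : 0 ≤ u) (huv : u < v) (hv : v ≤ 1) :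
    ∃ m : ℕ, 1 ≤ m ∧ Int.fract ((m : ℝ) * x) ∈ Ioo u v ∧ Irrational (Int.fract ((m : ℝ) * x)) ∧
      (∀ b ∈ B, EDense ε (O b (Int.fract ((m : ℝ) * x)))) ∧
      ∀ b : ℕ, 2 ≤ b → D b (Int.fract ((m : ℝ) * x)) = D b x := by
  obtain ⟨m, hm, h1, h2⟩ := exists_located B hB hx hε hu huv hv
  refine ⟨m, hm, h1, irrational_fract (hx.natCast_mul (by omega)), fun b hb => ?_, fun b hb => ?_⟩
  · rw [O_fract]
    exact h2 b hb
  · rw [D_fract hb]
    exact dim_nat_mul hb x hm

open Classical in
theorem result :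
    -- the function `D b`
    (∀ b : ℕ, 2 ≤ b →
      (∀ (x y : ℝ) (m n : ℤ) (r : ℚ), m ≠ 0 → n ≠ 0 → (n : ℝ) * y = m * x + r →
        D b y = D b x) ∧
      (∀ k : ℕ, 1 ≤ k → ∀ x : ℝ, D (b ^ k) x = D b x) ∧
      (∀ x y : ℝ, D b (x + y) ≤ D b x + D b y) ∧
      (∀ x y : ℝ, D b y = 0 → D b (x + y) = D b x) ∧
      ∃ V : Submodule ℚ ℝ, (V : Set ℝ) = {x | D b x = 0}) ∧
    -- most multiples have `ε`-dense orbits
    (∀ B : Finset ℕ, (∀ b ∈ B, 2 ≤ b) → ∀ x : ℝ, Irrational x → ∀ ε : ℝ, 0 < ε →
      Tendsto (fun M : ℕ => (((Finset.range M).filter fun m : ℕ =>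
        ∃ b ∈ B, ¬ EDense ε (O b ((m : ℝ) * x))).card : ℝ) / M) atTop (𝓝 0)) ∧
    -- localisation
    (∀ B : Finset ℕ, (∀ b ∈ B, 2 ≤ b) → ∀ x : ℝ, Irrational x → ∀ ε : ℝ, 0 < ε →
      ∀ u v : ℝ, 0 ≤ u → u < v → v ≤ 1 →
        ∃ m : ℕ, 1 ≤ m ∧ Int.fract ((m : ℝ) * x) ∈ Ioo u v ∧
          (∀ b ∈ B, EDense ε (O b (Int.fract ((m : ℝ) * x)))) ∧
          ∀ b : ℕ, 2 ≤ b → D b (Int.fract ((m : ℝ) * x)) = D b x) ∧
    -- the equivalence
    (∀ a b : ℕ, 2 ≤ a → 2 ≤ b → ∀ k l : ℕ, 1 ≤ k → 1 ≤ l → ∀ u v : ℝ, 0 ≤ u → u < v → v ≤ 1 →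
      ∀ ε : ℝ, 0 < ε →
        ((∀ x ∈ Ico (0 : ℝ) 1, Irrational x → 1 ≤ D a x + D b x) ↔
          ∀ x ∈ Ioo u v, Irrational x → EDense ε (O a x) → EDense ε (O b x) →
            1 ≤ D (a ^ k) x + D (b ^ l) x)) ∧
    -- no independent multiples in orbit closures of dimension less than one
    (∀ a : ℕ, 2 ≤ a → ∀ x : ℝ, Irrational x → D a x < 1 → ∀ p : ℤ, 2 ≤ p.natAbs →
      Indep p.natAbs a → ∀ r : ℚ, Int.fract (p * x + r) ∉ O a x ∧
        ∀ Y : Set ℝ, IsClosed Y → Y ⊆ Icc 0 1 → Y.Infinite → (∀ y ∈ Y, Int.fract (p * y) ∈ Y) →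
          ∃ y ∈ Y, Int.fract (y + r) ∉ O a x) := by
  refine ⟨fun b hb => ⟨?_, ?_, ?_, ?_, ?_⟩, ?_, ?_, ?_, ?_⟩
  · intro x y m n r hm hn h
    exact dim_affine hb hm hn h
  · intro k hk x
    exact dim_pow hb hk x
  · exact fun x y => dim_add hb x y
  · exact fun x y hy => D_add_of_zero hb x y hy
  · refine ⟨{ carrier := {x | D b x = 0}, add_mem' := ?_, zero_mem' := ?_, smul_mem' := ?_ }, rfl⟩
    · intro x y hx hy
      have : D b (x + y) = D b x := D_add_of_zero hb x y hy
      change D b (x + y) = 0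
      rw [this]
      exact hx
    · have h0 := dim_rat hb 0
      rw [Rat.cast_zero] at h0
      exact h0
    · intro q x hx
      change D b (q • x) = 0
      rcases eq_or_ne q 0 with h | h
      · subst h
        rw [zero_smul]
        have h0 := dim_rat hb 0
        rw [Rat.cast_zero] at h0
        exact h0
      · rw [Rat.smul_def]
        exact (dim_rat_mul hb x h).trans hx
  · intro B hB x hx ε hε
    rw [Metric.tendsto_atTop]
    intro δ hδ
    obtain ⟨M₀, hM₀⟩ := dilations B hB hx hε (δ := δ / 2) (by positivity)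
    refine ⟨max M₀ 1, fun M hM => ?_⟩
    have hM1 : 1 ≤ M := (le_max_right _ _).trans hM
    have hMr : (0 : ℝ) < M := by exact_mod_cast hM1
    have h1 := hM₀ M ((le_max_left _ _).trans hM)
    rw [Real.dist_eq, sub_zero, abs_of_nonneg (by positivity)]
    rw [div_lt_iff₀ hMr]
    have h2 : δ / 2 * M < δ * M := by nlinarith
    exact lt_of_le_of_lt h1 h2
  · intro B hB x hx ε hε u v hu huv hv
    obtain ⟨m, h1, h2, -, h3, h4⟩ := localise B hB hx hε hu huv hv
    exact ⟨m, h1, h2, h3, h4⟩
  · intro a b ha hb k l hk hl u v hu huv hv ε hε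
    constructor
    · intro h x hx hirr _ _
      rw [show D (a ^ k) x = D a x from dim_pow ha hk x, show D (b ^ l) x = D b x from dim_pow hb hl x]
      exact h x ⟨hu.trans hx.1.le, hx.2.trans_le hv⟩ hirr
    · intro h x _ hirr
      obtain ⟨m, h1, h2, h3, h4, h5⟩ := localise {a, b} (by simp [ha, hb]) hirr hε hu huv hv
      have h6 := h _ h2 h3 (h4 a (by simp)) (h4 b (by simp))
      rw [show D (a ^ k) (Int.fract ((m : ℝ) * x)) = D a (Int.fract ((m : ℝ) * x)) from
        dim_pow ha hk _, show D (b ^ l) (Int.fract ((m : ℝ) * x)) = D b (Int.fract ((m : ℝ) * x)) from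
        dim_pow hb hl _, h5 a ha, h5 b hb] at h6
      exact h6
  · intro a ha x hx hd p hp hpa r
    exact ⟨not_mem ha hx hd hp hpa r, fun Y hY hY1 hinf hinv => not_subset ha hd hp hpa hY hY1 hinf hinv r⟩

end Pool.Agent.Results.MP_c9a594_an.LocalAtDenseOrbits
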