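import Mathlib
import Pool.Agent.U55.PB.Ind

set_option autoImplicit false

/-!
# Numbers whose digits in two multiplicatively independent bases are cut into few simple pieces

A word `D` of integers is cut into simple pieces of order `m` by a set `E` of places, if every
stretch of `D` without a place of `E` satisfies a linear recurrence over `ℚ` of order `m` (the
recurrence depends on the stretch).  For instance a predictor (finite automaton) with `m` states
which reads `D` and announces the next letter cuts `D` in this way at its wrong predictions.

Let `S` be an infinite set of integers.  A real number is called *predictable along `S`* in base `b`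
if its digits differ from a word of linear block complexity by a sequence whose first `M` terms,
for every `M ∈ S`, are cut at `O(log M)` places into simple pieces of order `O(M ^ θ)`, for some
`θ < 1`.

We prove: if two sets of bases generate subgroups of the multiplicative group of `ℚ` with trivial
intersection, then a number which is in the fields generated by the predictable numbers of both
kinds is rational or a Liouville number.  Explicitly: for multiplicatively independent bases `a`, `b`,
every irrational number `x` which is not a Liouville number, and any `θ < 1`, `A`: two predictors with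
`M ^ θ` states, which work on the digits of `x` in the bases `a` and `b` (minus words of linear
complexity), make together more than `A log M` errors among the first `M`, for all large `M`.
Moreover numbers in the fields of `r` independent sets of bases are algebraically independent, if
they are irrational and none of them is a U-number.
-/

namespace Pool.Agent.Results.MP_c9a594_an.PiecesInIndependentBases

/-- the `k`-th digit after the point of `x` in base `b` (`k = 0` is the first one) -/
noncomputable def digit (b : ℕ) (x : ℝ) (k : ℕ) : ℤ := ⌊(b : ℝ) ^ (k + 1) * x⌋ % b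

/-- the number of different blocks of `n` consecutive letters of the word `w` -/
noncomputable def blocks (w : ℕ → ℤ) (n : ℕ) : ℕ :=
  (Set.range fun i : ℕ => fun j : Fin n => w (i + j)).ncard

/-- a word over the alphabet `{0, ..., b - 1}` with at most `C n` different blocks of length `n`
for every `n ≥ 1` -/
def Simple (b : ℕ) (C : ℝ) (w : ℕ → ℤ) : Prop :=
  (∀ k, 0 ≤ w k ∧ w k < b) ∧ ∀ n : ℕ, 1 ≤ n → (blocks w n : ℝ) ≤ C * n

/-- the terms `D_u, …, D_{v-1}` satisfy a linear recurrence over `ℚ` of order `m` -/
def Recurrent (D : ℕ → ℤ) (m u v : ℕ) : Prop := ∃ c : ℕ → ℚ, ∀ i, u ≤ i → i + m < v →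
  (D (i + m) : ℚ) = ∑ l ∈ Finset.range m, c l * (D (i + l) : ℚ)

/-- There is a set `E` of at most `r` places such that every stretch `D_u, …, D_{v-1}` of the first
`M` terms of `D` which contains no place of `E` satisfies a linear recurrence over `ℚ` of order `m`
(the recurrence may depend on the stretch). -/
def Pieces (D : ℕ → ℤ) (M m r : ℕ) : Prop := ∃ E : Finset ℕ, E.card ≤ r ∧
  ∀ u v, u ≤ v → v ≤ M → (∀ k ∈ E, k < u ∨ v ≤ k) → Recurrent D m u v

/-- A predictor with `K` states. In the state `s` it announces the letter `out s`; then it reads
the true letter `d` and moves to the state `step s d`. -/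
structure Predictor (K : ℕ) where
  /-- the announced letter -/
  out : Fin K → ℤ
  /-- the next state -/
  step : Fin K → ℤ → Fin K
  /-- the initial state -/
  start : Fin K

/-- the state before reading the letter with index `k` of the word `D` -/
def Predictor.state {K : ℕ} (P : Predictor K) (D : ℕ → ℤ) : ℕ → Fin K
  | 0 => P.start
  | k + 1 => P.step (P.state D k) (D k)

/-- the number of wrong predictions of the predictor among the first `M` letters of `D` -/
def Predictor.errors {K : ℕ} (P : Predictor K) (D : ℕ → ℤ) (M : ℕ) : ℕ :=
  ((Finset.range M).filter fun k => P.out (P.state D k) ≠ D k).card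

/-- `x` is predictable along `S` in base `b`: there are a word `w` of linear block complexity over
`{0, …, b - 1}`, a constant `C` and `θ < 1` such that for all `M ∈ S` the first `M` differences
between the digits of `x` and the letters of `w` are cut by at most `C (1 + log M)` places into
pieces which satisfy linear recurrences of order at most `C M ^ θ` -/
def Predictable (S : Set ℕ) (b : ℕ) (x : ℝ) : Prop := ∃ (w : ℕ → ℤ) (C θ : ℝ), θ < 1 ∧
  Simple b C w ∧ ∀ M ∈ S, ∃ m r : ℕ, (m : ℝ) ≤ C * (M : ℝ) ^ θ ∧
    (r : ℝ) ≤ C * (1 + Real.log M) ∧ Pieces (fun k => digit b x k - w k) M m r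

/-- the field generated by all real numbers which are predictable along `S` in some base `b ∈ A` -/
noncomputable def predictableField (S A : Set ℕ) : Subfield ℝ :=
  Subfield.closure {x | ∃ b ∈ A, Predictable S b x}

/-- `a` and `b` are multiplicatively independent -/
def Independent (a b : ℕ) : Prop := ∀ k l : ℕ, a ^ k = b ^ l → k = 0 ∧ l = 0

/-- the height of an integer polynomial: the largest absolute value of a coefficient -/
def height (P : Polynomial ℤ) : ℕ := P.support.sup fun i => (P.coeff i).natAbs

/-- Mahler's U-numbers: for some degree `d` and every exponent `w` there are infinitely many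
`P ∈ ℤ[X]` of degree at most `d` with `0 < |P(x)| ≤ (height P) ^ (-w)` -/
def UNumber (x : ℝ) : Prop :=
  ∃ d : ℕ, ∀ w : ℕ, {P : Polynomial ℤ | P.natDegree ≤ d ∧ 0 < |Polynomial.aeval x P| ∧
    |Polynomial.aeval x P| * (height P : ℝ) ^ w ≤ 1}.Infinite

/-- the subgroup of the multiplicative group of `ℚ` generated by `A` -/
def group (A : Set ℕ) : Subgroup ℚˣ := Subgroup.closure {u | ∃ b ∈ A, ((u : ℚˣ) : ℚ) = b}

lemma state_eq {K : ℕ} (P : Predictor K) (D : ℕ → ℤ) (k : ℕ) :
    P.state D k = Pool.Agent.R473.TB.st P.step P.start D k := by
  induction k with
  | zero => rfl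
  | succ k ih => rw [Predictor.state, Pool.Agent.R473.TB.st, ih]

lemma errors_eq {K : ℕ} (P : Predictor K) (D : ℕ → ℤ) (M : ℕ) :
    P.errors D M = Pool.Agent.R473.TB.errs P.out P.step P.start D M := by
  unfold Predictor.errors Pool.Agent.R473.TB.errs
  simp only [state_eq]

lemma pieces_errors {K : ℕ} (P : Predictor K) (D : ℕ → ℤ) (M : ℕ) :
    Pieces D M K (P.errors D M) := by
  rw [errors_eq]
  exact Pool.Agent.U55.PB.cut_st P.out P.step P.start D M

lemma pred_eq : Predictable = Pool.Agent.U55.PB.Pred := by
  funext S b x
  apply propext
  constructor
  · rintro ⟨w, C, θ, h1, ⟨h2, h3⟩, h4⟩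
    exact ⟨w, C, θ, h1, h2, h3, h4⟩
  · rintro ⟨w, C, θ, h1, h2, h3, h4⟩
    exact ⟨w, C, θ, h1, ⟨h2, h3⟩, h4⟩

lemma field_eq (S A : Set ℕ) : predictableField S A = Pool.Agent.U55.PB.PF S A := by
  unfold predictableField Pool.Agent.U55.PB.PF
  rw [pred_eq]

/-- **(1)** Let `A` and `B` be sets of integers `≥ 2` which generate subgroups of the multiplicative
group of `ℚ` with trivial intersection, and `S` an infinite set of integers. A number which is in the
field generated by the real numbers predictable along `S` in a base `b ∈ A`, and in the field
generated by the real numbers predictable along `S` in a base `b ∈ B`, is rational or a Liouville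
number.

**(2)** Let `a, b ≥ 2` be multiplicatively independent integers, let `u` and `v` be words of at most
linear block complexity over `{0, …, a - 1}` and `{0, …, b - 1}`, let `θ < 1` and `A` be real numbers
and let `x` be an irrational number which is not a Liouville number. For every sufficiently large
`M`: if the first `M` differences between the digits of `x` in base `a` and the letters of `u` are
cut by `r` places, and the first `M` differences between the digits of `x` in base `b` and the
letters of `v` by `s` places, into pieces which satisfy linear recurrences of order at most `M ^ θ`,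
then `r + s > A log M`; in particular two predictors with at most `M ^ θ` states which read these
differences make together more than `A log M` wrong predictions among the first `M`.

**(3)** Let `A_1, …, A_r` be sets of integers `≥ 2` which generate independent subgroups of the
multiplicative group of `ℚ`, let `S` be an infinite set of integers and let `x_i` be an irrational
number in the field generated by the real numbers predictable along `S` in a base `b ∈ A_i`, or a
transcendental number algebraic over this field. Then `x_1, …, x_r` are algebraically independent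
over `ℚ`, or one of them is a U-number. -/
theorem result :
    (∀ A B : Set ℕ, (∀ b ∈ A, 2 ≤ b) → (∀ b ∈ B, 2 ≤ b) → group A ⊓ group B = ⊥ →
      ∀ S : Set ℕ, S.Infinite → ∀ x ∈ predictableField S A, x ∈ predictableField S B →
        ¬ Irrational x ∨ Liouville x) ∧
    (∀ x : ℝ, Irrational x → ¬ Liouville x →
      ∀ a b : ℕ, 2 ≤ a → 2 ≤ b → Independent a b → ∀ (C : ℝ) (u v : ℕ → ℤ),
      Simple a C u → Simple b C v → ∀ θ : ℝ, θ < 1 → ∀ A : ℝ, ∃ M₀ : ℕ, ∀ M ≥ M₀,
        (∀ m m' r s : ℕ, (m : ℝ) ≤ (M : ℝ) ^ θ → (m' : ℝ) ≤ (M : ℝ) ^ θ →
          Pieces (fun k => digit a x k - u k) M m r →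
          Pieces (fun k => digit b x k - v k) M m' s → A * Real.log M < r + s) ∧
        ∀ K L : ℕ, (K : ℝ) ≤ (M : ℝ) ^ θ → (L : ℝ) ≤ (M : ℝ) ^ θ →
          ∀ (P : Predictor K) (Q : Predictor L),
          A * Real.log M < P.errors (fun k => digit a x k - u k) M +
            Q.errors (fun k => digit b x k - v k) M) ∧
    (∀ (r : ℕ) (A : Fin r → Set ℕ), (∀ i, ∀ b ∈ A i, 2 ≤ b) →
      (∀ g : Fin r → ℚˣ, (∀ i, g i ∈ group (A i)) → ∏ i, g i = 1 → ∀ i, g i = 1) →
      ∀ S : Set ℕ, S.Infinite → ∀ x : Fin r → ℝ,
      (∀ i, Transcendental ℚ (x i) ∧ IsAlgebraic (predictableField S (A i)) (x i) ∨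
        Irrational (x i) ∧ x i ∈ predictableField S (A i)) →
      AlgebraicIndependent ℚ x ∨ ∃ i, UNumber (x i)) := by
  refine ⟨fun A B hA hB h S hS x hx hy => ?_,
    fun x hx hL a b ha hb hab C u v hu hv θ hθ A => ?_, fun r A hA hΓ S hS x hx => ?_⟩
  · rw [field_eq] at hx hy
    by_cases hirr : Irrational x
    · exact Or.inr (Pool.Agent.U55.PB.two_PF hA hB h hS hx hy hirr)
    · exact Or.inl hirr
  · obtain ⟨M0, h⟩ := Pool.Agent.U55.PB.two_liouville hx hL ha hb hab hu.1 hv.1 hu.2 hv.2 hθ A
    refine ⟨M0, fun M hM => ⟨fun m m' r s hm1 hm2 hr hs => h M hM m m' r s hm1 hm2 hr hs,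
      fun K L hK hL P Q => h M hM K L _ _ hK hL (pieces_errors P _ M) (pieces_errors Q _ M)⟩⟩
  · by_cases hdep : AlgebraicIndependent ℚ x
    · exact Or.inl hdep
    · refine Or.inr (Pool.Agent.U55.PB.indep_PF hA hΓ hS x (fun i => ?_) (fun i => ?_) hdep)
      · rw [← field_eq]
        rcases hx i with h | h
        · exact h.2
        · exact isAlgebraic_algebraMap (⟨x i, h.2⟩ : predictableField S (A i))
      · rcases hx i with h | h
        · exact h.1
        · have h2 := h.2
          rw [field_eq] at h2
          exact Pool.Agent.U55.PB.transc_PF (hA i) hS h2 h.1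

end Pool.Agent.Results.MP_c9a594_an.PiecesInIndependentBases
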