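import Pool.Agent.U59.PM.Final

/-!
The orbit closures of the values at the integers of a real polynomial with irrational leading
coefficient (for instance of `f(m) x`, `f` an integer polynomial, `x` irrational): for all but a power
less than `M` of the `m < M` they meet, in every base of a finite set, most cells of a given length,
uniformly in the polynomial.
-/

set_option autoImplicit false

namespace Pool.Agent.Results.MP_c9a594_an.PolynomialDilates

open Polynomial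

/-- the `v` such that `g ^ n y` modulo one is in `[v / g ^ k, (v + 1) / g ^ k)` for infinitely many
`n` -/
def cells (g k : ℕ) (y : ℝ) : Set ℕ := {v : ℕ | {n : ℕ | (v : ℝ) / g ^ k ≤ Int.fract (g ^ n * y) ∧
  Int.fract (g ^ n * y) < (v + 1) / g ^ k}.Infinite}

/-- every point of `[0, 1]` is within less than `ε` of a point `g ^ n y` modulo one, `n ≥ n0`, for
every `n0` -/
def EDense (ε : ℝ) (g : ℕ) (y : ℝ) : Prop := ∀ t : ℝ, 0 ≤ t → t ≤ 1 → ∀ n0 : ℕ, ∃ n, n0 ≤ n ∧
  |Int.fract (g ^ n * y) - t| < ε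

/-- Let `d ≥ 1` and let `A` be a finite set of integers `≥ 2`.

(1) There is a `c > 0`, which depends on `d` only, such that for every `k ≥ 1` there is a `C` with:
for every real polynomial `F` of degree `d` with irrational leading coefficient, `0 ≤ s ≤ 1` and
`M ≥ 1`, for all but at most `C M ^ (1 - c (1 - s))` of the `m < M`, for each base `g` in `A` more
than `g ^ (s k)` of the `g ^ k` cells `[v / g ^ k, (v + 1) / g ^ k)` contain `g ^ n F(m)` modulo one
for infinitely many `n`.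

(2) For `ε > 0` there are a `C` and a `σ < 1` such that for every such `F` and `M ≥ 1`, for all but at
most `C M ^ σ` of the `m < M` the orbits of `F(m)` modulo one under all bases in `A` are `ε`-dense.

(3) Let `X` be a finite set of irrational numbers, `f` a nonconstant integer polynomial, `ε > 0` and `S`
a set of natural numbers whose reciprocals have an infinite sum. For infinitely many `m` in `S` the orbits
of `f(m) x` modulo one are `ε`-dense for all `x` in `X` and all bases in `A`.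

(4) In particular this holds for infinitely many primes. -/
theorem result :
    (∀ d : ℕ, 1 ≤ d → ∃ c : ℝ, 0 < c ∧ ∀ A : Finset ℕ, (∀ g ∈ A, 2 ≤ g) → ∀ k : ℕ, 1 ≤ k → ∃ C : ℝ,
      ∀ F : ℝ[X], F.natDegree = d → Irrational F.leadingCoeff → ∀ s : ℝ, 0 ≤ s → s ≤ 1 → ∀ M : ℕ, 1 ≤ M →
        (({m : ℕ | m < M ∧ ∃ g ∈ A, ((cells g k (F.eval (m : ℝ))).ncard : ℝ) ≤ (g : ℝ) ^ (s * k)}.ncard : ℕ) : ℝ) ≤
          C * (M : ℝ) ^ (1 - c * (1 - s))) ∧
    (∀ d : ℕ, 1 ≤ d → ∀ A : Finset ℕ, (∀ g ∈ A, 2 ≤ g) → ∀ ε : ℝ, 0 < ε → ∃ C σ : ℝ, 0 ≤ σ ∧ σ < 1 ∧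
      ∀ F : ℝ[X], F.natDegree = d → Irrational F.leadingCoeff → ∀ M : ℕ, 1 ≤ M →
        (({m : ℕ | m < M ∧ ∃ g ∈ A, ¬ EDense ε g (F.eval (m : ℝ))}.ncard : ℕ) : ℝ) ≤ C * (M : ℝ) ^ σ) ∧
    (∀ A : Finset ℕ, (∀ g ∈ A, 2 ≤ g) → ∀ ε : ℝ, 0 < ε → ∀ X : Finset ℝ, (∀ x ∈ X, Irrational x) →
      ∀ f : ℤ[X], 1 ≤ f.natDegree →
        (∀ S : Set ℕ, ¬ Summable (S.indicator fun m : ℕ => 1 / (m : ℝ)) →
          {m ∈ S | ∀ x ∈ X, ∀ g ∈ A, EDense ε g (f.eval (m : ℤ) * x)}.Infinite) ∧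
        {p : ℕ | p.Prime ∧ ∀ x ∈ X, ∀ g ∈ A, EDense ε g (f.eval (p : ℤ) * x)}.Infinite) := by
  refine ⟨fun d hd => ?_, fun d hd A hA ε hε => ?_, fun A hA ε hε X hX f hf => ⟨fun S hS => ?_, ?_⟩⟩
  · obtain ⟨c, hc, H⟩ := Pool.Agent.U59.PM.few_cells d hd
    refine ⟨c, hc, fun A hA k hk => ?_⟩
    obtain ⟨C, -, hC⟩ := H A hA k hk
    exact ⟨C, hC⟩
  · obtain ⟨C, σ, -, h0, h1, hC⟩ := Pool.Agent.U59.PM.not_dense d hd A hA ε hε
    exact ⟨C, σ, h0, h1, hC⟩
  · exact Pool.Agent.U59.PM.dense_in A hA ε hε X hX f hf S hS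
  · exact Pool.Agent.U59.PM.dense_in A hA ε hε X hX f hf {p : ℕ | p.Prime}
      not_summable_one_div_on_primes

end Pool.Agent.Results.MP_c9a594_an.PolynomialDilates
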