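import Mathlib
import Pool.Agent.U496.TB.Push
import Pool.Agent.U55.PB.Ind

/-!
# Predicting an irrational number in two bases with a stack (MP_c9a594_an)

Furstenberg's conjecture says that the expansions of an irrational number in two multiplicatively independent bases cannot
both be simple. Here simple means: predictable, with few errors, by a deterministic pushdown machine (finitely many states,
an unbounded stack, any number of silent moves) which reads the digits one after the other and predicts the next one.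

(1) Let `a, b ≥ 2` be coprime. There is `c > 0` which depends only on `a` and `b` such that for EVERY irrational `x`,
Liouville numbers included, and all `ρ, σ ≥ 1` the number of the `n ≤ N` with different digits at the places `n` and
`n + ρ` in base `a`, plus the number of the `n ≤ N` with different digits at the places `n` and `n + σ` in base `b`, is at
least `c log N` for all `N ≥ N₀(x, ρ, σ)`.
(2) For coprime `a, b` two pushdown machines which read the digits of `x` in base `a` and in base `b` make together at least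
`c log N` errors among the first `N` digits, for every irrational `x` and all `N ≥ N₀(x)`; `c` does not depend on `x`.
(3) Both statements fail for all pairs of bases which are not coprime, already for the machine which always predicts `0`:
for every function `ψ` which tends to infinity there is an irrational `x` which has, for arbitrarily large `N`, at most
`ψ(N)` nonzero digits altogether among the first `N` digits in base `a` and the first `N` digits in base `b`.
(4) For multiplicatively independent bases and every irrational `x` which is not a Liouville number the two machines make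
together more than `A log N` errors, for every `A` and all large `N`, also if they read the differences between the digits
and the letters of words of at most linear block complexity.

Proof. By the structure theorem for pushdown machines (`Pool.Agent.U496.PS.changes_le`) there is for each machine a `ρ` such
that the number of the changes at distance `ρ` is at most a constant times the number of the errors. If there are no changes
at the places between `u` and `4 (a + b) u` in both bases, then `(a ^ ρ - 1) a ^ u x` and `(b ^ σ - 1) b ^ u x` are so near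
to integers `p`, `p'` that the fractions `p / ((a ^ ρ - 1) a ^ u)` and `p' / ((b ^ σ - 1) b ^ u)` are equal; as `a` and `b`
are coprime, the denominator divides `(a ^ ρ - 1) (b ^ σ - 1)`, and `x` is too near to a fraction with a bounded
denominator. (3): `x = ∑ g ^ (- k_j)` for `g = gcd (a, b)`. (4): the theorem of helper55 on pieces which satisfy linear
recurrences (`Pool.Agent.U55.PB.two_liouville`).
-/

set_option autoImplicit false

namespace Pool.Agent.Results.MP_c9a594_an.PushdownTwoBases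

open Finset Filter
open Pool.Agent.U364.PD (Machine errors)

/-- the `n`-th digit after the point (`n ≥ 1`) of `x` in base `b` -/
noncomputable def digit (b : ℕ) (x : ℝ) (n : ℕ) : ℤ := ⌊(b : ℝ) ^ n * x⌋ % b

/-- the number of the `n < N` with `y (n + 1 + ρ) ≠ y (n + 1)` -/
def changes (y : ℕ → ℤ) (ρ N : ℕ) : ℕ := ((range N).filter fun n => y (n + 1 + ρ) ≠ y (n + 1)).card

/-- `a` and `b` are multiplicatively independent -/
def Independent (a b : ℕ) : Prop := ∀ k l : ℕ, a ^ k = b ^ l → k = 0 ∧ l = 0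

/-- a word over the alphabet `{0, ..., b - 1}` with at most `C n` different blocks of length `n`
for every `n ≥ 1` -/
def Simple (b : ℕ) (C : ℝ) (w : ℕ → ℤ) : Prop :=
  (∀ k, 0 ≤ w k ∧ w k < b) ∧
    ∀ n : ℕ, 1 ≤ n → ((Set.range fun i : ℕ => fun j : Fin n => w (i + j)).ncard : ℝ) ≤ C * n

lemma blocks_shift {b : ℕ} {w : ℕ → ℤ} (hw : ∀ k, 0 ≤ w k ∧ w k < b) (n : ℕ) :
    Pool.Agent.R473.TB.blocks (fun k => w (k + 1)) n ≤
      (Set.range fun i : ℕ => fun j : Fin n => w (i + j)).ncard := by
  unfold Pool.Agent.R473.TB.blocks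
  apply Set.ncard_le_ncard
  · rintro _ ⟨i, rfl⟩
    refine ⟨i + 1, ?_⟩
    funext j
    change w (i + 1 + j) = w (i + j + 1)
    congr 1
    omega
  · apply Set.Finite.subset (Set.Finite.pi (fun _ : Fin n => Set.finite_Ico (0 : ℤ) b))
    rintro _ ⟨i, rfl⟩
    rw [Set.mem_univ_pi]
    intro j
    exact ⟨(hw _).1, (hw _).2⟩

/-- the places of the changes cut the sequence into pieces with period `ρ` -/
lemma cut_changes (y : ℕ → ℤ) (ρ N : ℕ) (hρ : 1 ≤ ρ) :
    Pool.Agent.U55.PB.Cut (fun k => y (k + 1)) N ρ (changes y ρ N) := by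
  refine ⟨(range N).filter fun n => y (n + 1 + ρ) ≠ y (n + 1), le_rfl, fun u v huv hv hS => ?_⟩
  refine ⟨fun l => if l = 0 then 1 else 0, fun i hi hiv => ?_⟩
  have h1 : y (i + 1 + ρ) = y (i + 1) := by
    by_contra hcon
    have h2 := hS i (by rw [mem_filter, mem_range]; exact ⟨by omega, hcon⟩)
    omega
  have h2 : ∑ l ∈ range ρ, (if l = 0 then (1 : ℚ) else 0) * ((y (i + l + 1) : ℤ) : ℚ) = y (i + 1) := by
    rw [Finset.sum_eq_single 0]
    · simp
    · intro l _ hl
      rw [if_neg hl, zero_mul]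
    · intro h
      exact absurd (mem_range.2 (by omega)) h
  change ((y (i + ρ + 1) : ℤ) : ℚ) = _
  rw [show i + ρ + 1 = i + 1 + ρ by ring, h1]
  exact h2.symm

lemma changes_errors {Q Γ : Type} [Finite Q] [Finite Γ] (M : Machine Q Γ) (b : ℕ) :
    ∃ K ρ : ℕ, 1 ≤ ρ ∧ ∀ y : ℕ → ℤ, (∀ n, -(b : ℤ) ≤ y n ∧ y n < b) → ∀ (q₀ : Q) (s₀ : List Γ) (N : ℕ),
      changes y ρ N ≤ K * (errors M y q₀ s₀ N + s₀.length + 1) := by
  obtain ⟨K, ρ, hρ, h⟩ := Pool.Agent.U496.TB.changes_int M b
  refine ⟨K, ρ, hρ, fun y hy q₀ s₀ N => ?_⟩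
  have h1 := h y hy q₀ s₀ N
  unfold changes
  convert h1

/-- **Two bases and two pushdown machines.** -/
theorem result (a b : ℕ) (ha : 2 ≤ a) (hb : 2 ≤ b) :
    (Nat.Coprime a b → ∃ c : ℝ, 0 < c ∧ ∀ x : ℝ, Irrational x → ∀ ρ σ : ℕ, 1 ≤ ρ → 1 ≤ σ →
      ∃ N₀ : ℕ, ∀ N : ℕ, N₀ ≤ N →
        c * Real.log N ≤ (changes (digit a x) ρ N : ℝ) + changes (digit b x) σ N) ∧
    (Nat.Coprime a b → ∀ (Q Γ Q' Γ' : Type) [Finite Q] [Finite Γ] [Finite Q'] [Finite Γ'] (M : Machine Q Γ)
      (M' : Machine Q' Γ'), ∃ c : ℝ, 0 < c ∧ ∀ x : ℝ, Irrational x → ∃ N₀ : ℕ, ∀ N : ℕ, N₀ ≤ N →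
        ∀ (q₀ : Q) (s₀ : List Γ) (q₀' : Q') (s₀' : List Γ'),
        c * Real.log N ≤ (errors M (digit a x) q₀ s₀ N : ℝ) + s₀.length +
          (errors M' (digit b x) q₀' s₀' N + s₀'.length)) ∧
    (¬ Nat.Coprime a b → ∃ Z : Machine Unit Unit, ∀ ψ : ℕ → ℝ, Tendsto ψ atTop atTop →
      ∃ x : ℝ, Irrational x ∧ ∀ N₁ : ℕ, ∃ N : ℕ, N₁ ≤ N ∧
        (errors Z (digit a x) () [()] N : ℝ) + errors Z (digit b x) () [()] N ≤ ψ N ∧
        (((range N).filter fun n => digit a x (n + 1) ≠ 0).card : ℝ) +
          ((range N).filter fun n => digit b x (n + 1) ≠ 0).card ≤ ψ N) ∧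
    (Independent a b → ∀ (Q Γ Q' Γ' : Type) [Finite Q] [Finite Γ] [Finite Q'] [Finite Γ'] (M : Machine Q Γ)
      (M' : Machine Q' Γ') (x : ℝ), Irrational x → ¬ Liouville x → ∀ (C : ℝ) (u v : ℕ → ℤ),
      Simple a C u → Simple b C v → ∀ A : ℝ, ∃ N₀ : ℕ, ∀ N : ℕ, N₀ ≤ N →
        ∀ (q₀ : Q) (s₀ : List Γ) (q₀' : Q') (s₀' : List Γ'),
        A * Real.log N < (errors M (fun n => digit a x n - u n) q₀ s₀ N : ℝ) + s₀.length +
          (errors M' (fun n => digit b x n - v n) q₀' s₀' N + s₀'.length)) := by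
  have hdig : ∀ (m : ℕ) (y : ℝ), digit m y = Pool.Agent.U496.TB.digit m y := fun m y => rfl
  refine ⟨fun hab => ?_, fun hab Q Γ Q' Γ' _ _ _ _ M M' => ?_, fun hab => ?_,
    fun hab Q Γ Q' Γ' _ _ _ _ M M' x hx hL C u v hu hv A => ?_⟩
  · obtain ⟨c, hc, h⟩ := Pool.Agent.U496.TB.changes_coprime a b ha hb hab
    refine ⟨c, hc, fun x hx ρ σ hρ hσ => ?_⟩
    obtain ⟨N₀, hN₀⟩ := h x hx ρ σ hρ hσ
    refine ⟨N₀, fun N hN => ?_⟩
    refine (hN₀ N hN).trans (le_of_eq ?_)
    unfold changes
    congr!
  · exact Pool.Agent.U496.TB.push_coprime a b ha hb hab M M'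
  · refine ⟨Pool.Agent.U496.TB.zm, fun ψ hψ => ?_⟩
    obtain ⟨x, hx, h⟩ := Pool.Agent.U496.TB.sharp a b ha hb hab ψ hψ
    refine ⟨x, hx, fun N₁ => ?_⟩
    obtain ⟨N, hN, h1⟩ := h N₁
    refine ⟨N, hN, ?_, h1⟩
    rw [Pool.Agent.U496.TB.errors_zm, Pool.Agent.U496.TB.errors_zm]
    exact h1
  · obtain ⟨K, ρ, hρ, h⟩ := changes_errors M a
    obtain ⟨K', σ, hσ, h'⟩ := changes_errors M' b
    obtain ⟨M0, hM0⟩ := Pool.Agent.U55.PB.two_liouville (u := fun k => u (k + 1)) (v := fun k => v (k + 1)) (C := C)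
      (θ := 1 / 2) hx hL ha hb hab (fun k => hu.1 (k + 1)) (fun k => hv.1 (k + 1))
      (fun n hn => (Nat.cast_le.2 (blocks_shift hu.1 n)).trans (hu.2 n hn))
      (fun n hn => (Nat.cast_le.2 (blocks_shift hv.1 n)).trans (hv.2 n hn)) (by norm_num)
      ((|A| + 1) * (K + K' + 1))
    obtain ⟨N₁, hN₁⟩ := exists_nat_gt (Real.exp 2)
    refine ⟨max (max M0 N₁) (max (ρ ^ 2) (σ ^ 2)), fun N hN q₀ s₀ q₀' s₀' => ?_⟩
    have hNM : M0 ≤ N := (le_max_left _ _).trans ((le_max_left _ _).trans hN)
    have hNN : N₁ ≤ N := (le_max_right _ _).trans ((le_max_left _ _).trans hN)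
    have hNρ : ρ ^ 2 ≤ N := (le_max_left _ _).trans ((le_max_right _ _).trans hN)
    have hNσ : σ ^ 2 ≤ N := (le_max_right _ _).trans ((le_max_right _ _).trans hN)
    have hsq : ∀ τ : ℕ, τ ^ 2 ≤ N → (τ : ℝ) ≤ (N : ℝ) ^ (1 / 2 : ℝ) := by
      intro τ hτ
      rw [← Real.sqrt_eq_rpow]
      apply Real.le_sqrt_of_sq_le
      exact_mod_cast hτ
    have h1 := hM0 N hNM ρ σ (changes (fun n => digit a x n - u n) ρ N) (changes (fun n => digit b x n - v n) σ N)
      (hsq ρ hNρ) (hsq σ hNσ) (cut_changes (fun n => digit a x n - u n) ρ N hρ)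
      (cut_changes (fun n => digit b x n - v n) σ N hσ)
    have hbd : ∀ (m : ℕ), 2 ≤ m → ∀ w : ℕ → ℤ, (∀ k, 0 ≤ w k ∧ w k < m) → ∀ n,
        -(m : ℤ) ≤ digit m x n - w n ∧ digit m x n - w n < m := by
      intro m hm w hw n
      have h2 := Pool.Agent.U496.TB.digit_bound m (by omega) x n
      rw [← hdig] at h2
      have h3 := hw n
      omega
    have h2 := h (fun n => digit a x n - u n) (hbd a ha u hu.1) q₀ s₀ N
    have h2' := h' (fun n => digit b x n - v n) (hbd b hb v hv.1) q₀' s₀' N
    obtain ⟨E, hE⟩ : ∃ E, E = (errors M (fun n => digit a x n - u n) q₀ s₀ N : ℝ) + s₀.length := ⟨_, rfl⟩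
    obtain ⟨E', hE'⟩ : ∃ E', E' = (errors M' (fun n => digit b x n - v n) q₀' s₀' N : ℝ) + s₀'.length := ⟨_, rfl⟩
    have hE0 : 0 ≤ E := by rw [hE]; positivity
    have hE0' : 0 ≤ E' := by rw [hE']; positivity
    have h3 : (changes (fun n => digit a x n - u n) ρ N : ℝ) ≤ K * (E + 1) := by
      rw [hE]
      exact_mod_cast h2
    have h3' : (changes (fun n => digit b x n - v n) σ N : ℝ) ≤ K' * (E' + 1) := by
      rw [hE']
      exact_mod_cast h2'
    rw [← hE, ← hE']
    have hK : (0 : ℝ) ≤ K := by positivity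
    have hK' : (0 : ℝ) ≤ K' := by positivity
    have hlog : 2 ≤ Real.log N := by
      rw [Real.le_log_iff_exp_le (lt_of_lt_of_le (Real.exp_pos 2) (hN₁.le.trans (by exact_mod_cast hNN)))]
      exact hN₁.le.trans (by exact_mod_cast hNN)
    have h4 : (|A| + 1) * (K + K' + 1) * Real.log N < (K + K' + 1) * (E + E' + 2) := by
      nlinarith [mul_nonneg hK hE0', mul_nonneg hK' hE0]
    have h5 : (|A| + 1) * Real.log N < E + E' + 2 := by
      have hpos : (0 : ℝ) < K + K' + 1 := by positivity
      have h6 : (K + K' + 1) * ((|A| + 1) * Real.log N) < (K + K' + 1) * (E + E' + 2) := by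
        refine lt_of_le_of_lt (le_of_eq ?_) h4
        ring
      exact lt_of_mul_lt_mul_left h6 hpos.le
    have h7 : A * Real.log N ≤ |A| * Real.log N := mul_le_mul_of_nonneg_right (le_abs_self A) (by linarith)
    nlinarith

end Pool.Agent.Results.MP_c9a594_an.PushdownTwoBases
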